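import Pool.Agent.GenF.Defs

/-!
MODULE SIZE. Elementary facts on `nrm` and `box`.
-/

set_option autoImplicit false

namespace Pool.Agent.GenF

open Finset

variable {O : Type} [CommRing O] {n : ℕ} (b : Module.Basis (Fin n) ℤ O)

theorem nrm_le_iff (x : O) (m : ℕ) : nrm b x ≤ m ↔ ∀ i, (b.repr x i).natAbs ≤ m := by
  unfold nrm
  rw [Finset.sup_le_iff]
  exact ⟨fun h i => h i (mem_univ i), fun h i _ => h i⟩

theorem nrm_zero : nrm b (0 : O) = 0 := by
  refine Nat.le_zero.mp ((nrm_le_iff b 0 0).mpr fun i => ?_)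
  simp

theorem nrm_eq_zero {x : O} (h : nrm b x = 0) : x = 0 := by
  have h1 := (nrm_le_iff b x 0).mp h.le
  have h2 : b.repr x = 0 := by
    ext i
    have := h1 i
    simpa using this
  exact (LinearEquiv.map_eq_zero_iff b.repr).mp h2

theorem nrm_neg (x : O) : nrm b (-x) = nrm b x := by
  unfold nrm
  refine Finset.sup_congr rfl fun i _ => ?_
  rw [map_neg, Finsupp.neg_apply, Int.natAbs_neg]

theorem nrm_add_le (x y : O) : nrm b (x + y) ≤ nrm b x + nrm b y := by
  refine (nrm_le_iff b _ _).mpr fun i => ?_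
  rw [map_add, Finsupp.add_apply]
  have h1 := (nrm_le_iff b x _).mp le_rfl i
  have h2 := (nrm_le_iff b y _).mp le_rfl i
  exact (Int.natAbs_add_le _ _).trans (add_le_add h1 h2)

theorem nrm_sub_le (x y : O) : nrm b (x - y) ≤ nrm b x + nrm b y := by
  rw [sub_eq_add_neg, ← nrm_neg b y]
  exact nrm_add_le b x (-y)

theorem nrm_intCast_mul (c : ℤ) (x : O) : nrm b ((c : O) * x) = c.natAbs * nrm b x := by
  have hx : (c : O) * x = c • x := by rw [zsmul_eq_mul]
  rw [hx]
  refine le_antisymm ((nrm_le_iff b _ _).mpr fun i => ?_) ?_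
  · rw [map_zsmul, Finsupp.smul_apply, smul_eq_mul, Int.natAbs_mul]
    exact Nat.mul_le_mul_left _ ((nrm_le_iff b x _).mp le_rfl i)
  · rcases Nat.eq_zero_or_pos c.natAbs with h | h
    · rw [h, zero_mul]
      exact Nat.zero_le _
    · rw [mul_comm, ← Nat.le_div_iff_mul_le h]
      refine (nrm_le_iff b _ _).mpr fun i => ?_
      rw [Nat.le_div_iff_mul_le h]
      have h1 := (nrm_le_iff b (c • x) _).mp le_rfl i
      rw [map_zsmul, Finsupp.smul_apply, smul_eq_mul, Int.natAbs_mul] at h1
      rw [mul_comm]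
      exact h1

theorem nrm_natCast_mul (c : ℕ) (x : O) : nrm b ((c : O) * x) = c * nrm b x := by
  have h := nrm_intCast_mul b (c : ℤ) x
  rwa [Int.cast_natCast, Int.natAbs_natCast] at h

theorem mem_box {lo hi : ℤ} {x : O} :
    x ∈ box b lo hi ↔ ∀ i, lo ≤ b.repr x i ∧ b.repr x i < hi := by
  unfold box
  rw [Finset.mem_map]
  constructor
  · rintro ⟨v, hv, rfl⟩ i
    have h1 := (Fintype.mem_piFinset.mp hv) i
    rw [Finset.mem_Ico] at h1
    have h2 : b.repr (b.equivFun.symm v) i = v i := by
      rw [← Module.Basis.equivFun_apply, LinearEquiv.apply_symm_apply]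
    have h3 : (b.equivFun.symm.toEquiv.toEmbedding v) = b.equivFun.symm v := rfl
    rw [h3, h2]
    exact h1
  · intro h
    refine ⟨b.equivFun x, ?_, ?_⟩
    · rw [Fintype.mem_piFinset]
      intro i
      rw [Finset.mem_Ico, Module.Basis.equivFun_apply]
      exact h i
    · exact LinearEquiv.symm_apply_apply b.equivFun x

theorem card_box (lo hi : ℤ) : (box b lo hi).card = (hi - lo).toNat ^ n := by
  unfold box
  rw [Finset.card_map, Fintype.card_piFinset, Finset.prod_const, Int.card_Ico, Finset.card_univ,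
    Fintype.card_fin]

theorem nrm_lt_of_mem_box {M : ℕ} {x : O} (hM : 0 < M) (hx : x ∈ box b 0 M) : nrm b x < M := by
  have h := (mem_box b).mp hx
  have h1 : nrm b x ≤ M - 1 := by
    refine (nrm_le_iff b _ _).mpr fun i => ?_
    have := h i
    omega
  omega

private theorem shift_one (c : ℤ) (M : ℕ) :
    ((Ico (0 : ℤ) M).filter fun t => t + c ∉ Ico (0 : ℤ) M).card ≤ c.natAbs := by
  rcases le_total 0 c with hc | hc
  · have hsub : ((Ico (0 : ℤ) M).filter fun t => t + c ∉ Ico (0 : ℤ) M) ⊆ Ico ((M : ℤ) - c) M := by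
      intro t ht
      simp only [mem_filter, mem_Ico, not_and, not_lt] at ht ⊢
      have := ht.2 (by omega)
      omega
    refine (card_le_card hsub).trans ?_
    rw [Int.card_Ico]
    omega
  · have hsub : ((Ico (0 : ℤ) M).filter fun t => t + c ∉ Ico (0 : ℤ) M) ⊆ Ico (0 : ℤ) (-c) := by
      intro t ht
      simp only [mem_filter, mem_Ico, not_and, not_lt] at ht ⊢
      by_contra hcon
      have h1 : 0 ≤ t + c := by omega
      have := ht.2 h1
      omega
    refine (card_le_card hsub).trans ?_
    rw [Int.card_Ico]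
    omega

open Classical in
/-- If `x` is in the box and `x + y` is not, then for some `i` the coordinate `x_i` is one of at most
`|y_i|` values near the boundary of `[0, M)`; the other coordinates are free. -/
theorem shift_card (y : O) (M : ℕ) :
    ((box b 0 M).filter fun x => x + y ∉ box b 0 M).card ≤ n * nrm b y * M ^ (n - 1) := by
  have h1 : ((box b 0 M).filter fun x => x + y ∉ box b 0 M) ⊆
      univ.biUnion fun i : Fin n => ((Fintype.piFinset fun j : Fin n =>
        if j = i then (Ico (0 : ℤ) M).filter fun t => t + b.repr y i ∉ Ico (0 : ℤ) M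
        else Ico (0 : ℤ) M).map b.equivFun.symm.toEquiv.toEmbedding) := by
    intro x hx
    rw [mem_filter, mem_box, mem_box] at hx
    obtain ⟨hx1, hx2⟩ := hx
    push Not at hx2
    obtain ⟨i, hi⟩ := hx2
    rw [mem_biUnion]
    refine ⟨i, mem_univ _, ?_⟩
    rw [mem_map]
    refine ⟨b.equivFun x, ?_, b.equivFun.symm_apply_apply x⟩
    rw [Fintype.mem_piFinset]
    intro j
    by_cases hj : j = i
    · subst hj
      simp only [if_true, mem_filter, mem_Ico, Module.Basis.equivFun_apply]
      refine ⟨hx1 j, fun hh => ?_⟩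
      have := hi (by simpa using hh.1)
      simp only [map_add, Finsupp.coe_add, Pi.add_apply] at this
      omega
    · simp only [if_neg hj, mem_Ico, Module.Basis.equivFun_apply]
      exact hx1 j
  refine (card_le_card h1).trans (card_biUnion_le.trans ?_)
  have h2 : ∀ i ∈ (univ : Finset (Fin n)), ((Fintype.piFinset fun j : Fin n =>
        if j = i then (Ico (0 : ℤ) M).filter fun t => t + b.repr y i ∉ Ico (0 : ℤ) M
        else Ico (0 : ℤ) M).map b.equivFun.symm.toEquiv.toEmbedding).card ≤
        nrm b y * M ^ (n - 1) := by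
    intro i _
    rw [card_map, Fintype.card_piFinset, ← Finset.mul_prod_erase univ _ (mem_univ i)]
    refine Nat.mul_le_mul ?_ ?_
    · rw [if_pos rfl]
      refine (shift_one _ M).trans ?_
      exact Finset.le_sup (f := fun i => (b.repr y i).natAbs) (mem_univ i)
    · refine le_of_eq ?_
      rw [Finset.prod_congr rfl (g := fun _ => M) (fun j hj => by
        rw [if_neg (Finset.ne_of_mem_erase hj), Int.card_Ico]; simp)]
      rw [Finset.prod_const, card_erase_of_mem (mem_univ i), card_univ, Fintype.card_fin]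
  refine (Finset.sum_le_sum h2).trans ?_
  rw [Finset.sum_const, card_univ, Fintype.card_fin, smul_eq_mul, mul_assoc]

end Pool.Agent.GenF
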