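import Mathlib

/-!
Small generating sets of the multiplicative group modulo a prime: definitions.
`O` is a Dedekind domain which is free of rank `n` over the integers, with a basis `b`.
-/

set_option autoImplicit false

namespace Pool.Agent.GenF

open Finset

/-- the largest absolute value of a coordinate of `x` -/
noncomputable def nrm {O : Type} [CommRing O] {n : ℕ} (b : Module.Basis (Fin n) ℤ O) (x : O) : ℕ :=
  univ.sup fun i => (b.repr x i).natAbs

/-- the elements all of whose coordinates are in `[lo, hi)` -/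
noncomputable def box {O : Type} [CommRing O] {n : ℕ} (b : Module.Basis (Fin n) ℤ O) (lo hi : ℤ) : Finset O :=
  (Fintype.piFinset fun _ : Fin n => Ico lo hi).map b.equivFun.symm.toEquiv.toEmbedding

/-- the prime ideals whose norm is in `(u, v]` -/
noncomputable def wnd (O : Type) [CommRing O] [IsDedekindDomain O] [Module.Free ℤ O]
    [Module.Finite ℤ O] [CharZero O] (u v : ℝ) : Finset (Ideal O) :=
  open Classical in
  (Ideal.finite_setOfPred_absNorm_le (S := O) ⌊v⌋₊).toFinset.filter fun l =>
    l.IsPrime ∧ u < (Ideal.absNorm l : ℝ) ∧ (Ideal.absNorm l : ℝ) ≤ v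

/-- the prime ideals of `O` have the expected density on the logarithmic scale -/
def HMert (O : Type) [CommRing O] [IsDedekindDomain O] [Module.Free ℤ O]
    [Module.Finite ℤ O] [CharZero O] : Prop :=
  ∀ a b : ℝ, 0 < a → a < b → ∀ᶠ x : ℝ in Filter.atTop,
    (b - a) / (2 * b) ≤ ∑ l ∈ wnd O (x ^ a) (x ^ b), (1 : ℝ) / (Ideal.absNorm l : ℝ)

/-- the units modulo `p` of the form `∑ J, a J * ∏ j ∈ J, r j` with `|a J| ≤ E` -/
def small (p : ℕ) (k : ℕ) (r : Fin k → ZMod p) (E : ℕ) : Set (ZMod p)ˣ :=
  {u | ∃ a : Finset (Fin k) → ℤ, (∀ J, (a J).natAbs ≤ E) ∧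
    (u : ZMod p) = ∑ J, (a J : ZMod p) * ∏ j ∈ J, r j}

/-- the integers `d j` are independent modulo squares -/
def Indep (k : ℕ) (d : Fin k → ℕ) : Prop :=
  ∀ J : Finset (Fin k), J.Nonempty → ¬ IsSquare (∏ j ∈ J, d j)

end Pool.Agent.GenF
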