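import Mathlib

/-!
MODULE BESS. Bessel's inequality, and a character trivial on a subgroup.

`bessel`: `∑_{x ∈ B} |∑_i f i x|^2` is at least `n^2 * T.card` (terms `x ∈ T`) and equals
`∑_i ∑_j ∑_{x ∈ B} f i x * conj (f j x)`, diagonal terms at most `B.card`, the others at most `η`.
`exists_char`: the quotient of `(ZMod p)ˣ` by `H` is a nontrivial finite commutative group, so there is a
homomorphism to `ℂˣ` which is nontrivial (`CommGroup.exists_apply_ne_one_of_hasEnoughRootsOfUnity`);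
compose with the quotient map and use `MulChar.ofUnitHom`.
-/

set_option autoImplicit false

namespace Pool.Agent.GenF

open Finset

theorem bessel {X : Type} (B T : Finset X) (hT : T ⊆ B) {n : ℕ} (f : Fin n → X → ℂ)
    (hf : ∀ i x, ‖f i x‖ ≤ 1) (h1 : ∀ i, ∀ x ∈ T, f i x = 1) (η : ℝ) (hη : 0 ≤ η)
    (ho : ∀ i j, i ≠ j → ‖∑ x ∈ B, f i x * (starRingEnd ℂ) (f j x)‖ ≤ η) :
    (n : ℝ) ^ 2 * T.card ≤ n * B.card + (n : ℝ) ^ 2 * η := by
  classical
  have hlow : (n : ℝ) ^ 2 * T.card ≤ ∑ x ∈ B, ‖∑ i, f i x‖ ^ 2 := by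
    have h2 : ∑ x ∈ T, ‖∑ i, f i x‖ ^ 2 ≤ ∑ x ∈ B, ‖∑ i, f i x‖ ^ 2 :=
      Finset.sum_le_sum_of_subset_of_nonneg hT fun _ _ _ => by positivity
    refine le_trans (le_of_eq ?_) h2
    have h3 : ∀ x ∈ T, ‖∑ i, f i x‖ ^ 2 = (n : ℝ) ^ 2 := by
      intro x hx
      have : ∑ i, f i x = (n : ℂ) := by
        rw [Finset.sum_congr rfl fun i _ => h1 i x hx]
        simp
      rw [this, Complex.norm_natCast]
    rw [Finset.sum_congr rfl h3, Finset.sum_const, nsmul_eq_mul]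
    ring
  have hexp : ∀ x, ((‖∑ i, f i x‖ ^ 2 : ℝ) : ℂ) =
      ∑ i, ∑ j, f i x * (starRingEnd ℂ) (f j x) := by
    intro x
    rw [Complex.ofReal_pow, ← Complex.mul_conj', map_sum, Finset.sum_mul_sum]
  have heq : ((∑ x ∈ B, ‖∑ i, f i x‖ ^ 2 : ℝ) : ℂ) =
      ∑ i, ∑ j, ∑ x ∈ B, f i x * (starRingEnd ℂ) (f j x) := by
    rw [Complex.ofReal_sum, Finset.sum_congr rfl fun x _ => hexp x, Finset.sum_comm]
    refine Finset.sum_congr rfl fun i _ => ?_
    rw [Finset.sum_comm]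
  have hterm : ∀ i j, ‖∑ x ∈ B, f i x * (starRingEnd ℂ) (f j x)‖ ≤
      (if i = j then (B.card : ℝ) else 0) + η := by
    intro i j
    by_cases hij : i = j
    · subst hij
      rw [if_pos rfl]
      have h4 : ‖∑ x ∈ B, f i x * (starRingEnd ℂ) (f i x)‖ ≤ B.card := by
        refine (norm_sum_le _ _).trans ?_
        have h5 : ∀ x ∈ B, ‖f i x * (starRingEnd ℂ) (f i x)‖ ≤ (1 : ℝ) := by
          intro x _
          rw [norm_mul, RCLike.norm_conj]
          have := hf i x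
          have h0 := norm_nonneg (f i x)
          nlinarith
        refine (Finset.sum_le_sum h5).trans ?_
        rw [Finset.sum_const, nsmul_eq_mul, mul_one]
      linarith
    · rw [if_neg hij, zero_add]
      exact ho i j hij
  have hup : ∑ x ∈ B, ‖∑ i, f i x‖ ^ 2 ≤ n * B.card + (n : ℝ) ^ 2 * η := by
    have h6 : ∑ x ∈ B, ‖∑ i, f i x‖ ^ 2 = ‖((∑ x ∈ B, ‖∑ i, f i x‖ ^ 2 : ℝ) : ℂ)‖ := by
      rw [Complex.norm_real, Real.norm_of_nonneg (Finset.sum_nonneg fun _ _ => by positivity)]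
    rw [h6, heq]
    refine (norm_sum_le _ _).trans ?_
    have h7 : ∀ i ∈ (Finset.univ : Finset (Fin n)),
        ‖∑ j, ∑ x ∈ B, f i x * (starRingEnd ℂ) (f j x)‖ ≤ (B.card : ℝ) + n * η := by
      intro i _
      refine (norm_sum_le _ _).trans ((Finset.sum_le_sum fun j _ => hterm i j).trans ?_)
      rw [Finset.sum_add_distrib, Finset.sum_ite_eq, if_pos (Finset.mem_univ i), Finset.sum_const,
        Finset.card_univ, Fintype.card_fin, nsmul_eq_mul]
    refine (Finset.sum_le_sum h7).trans ?_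
    rw [Finset.sum_const, Finset.card_univ, Fintype.card_fin, nsmul_eq_mul]
    apply le_of_eq
    ring
  exact hlow.trans hup

theorem exists_char (p : ℕ) [Fact p.Prime] (H : Subgroup (ZMod p)ˣ) (hH : H ≠ ⊤) :
    ∃ χ : MulChar (ZMod p) ℂ, χ ≠ 1 ∧ ∀ u ∈ H, χ ((u : (ZMod p)ˣ) : ZMod p) = 1 := by
  classical
  obtain ⟨g, hg⟩ : ∃ g : (ZMod p)ˣ, g ∉ H := by
    by_contra hcon
    push Not at hcon
    exact hH (eq_top_iff.mpr fun x _ => hcon x)
  have hq : (QuotientGroup.mk g : (ZMod p)ˣ ⧸ H) ≠ 1 := by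
    rw [Ne, QuotientGroup.eq_one_iff]
    exact hg
  obtain ⟨φ, hφ⟩ := CommGroup.exists_apply_ne_one_of_hasEnoughRootsOfUnity ((ZMod p)ˣ ⧸ H) ℂ hq
  refine ⟨MulChar.ofUnitHom (φ.comp (QuotientGroup.mk' H)), ?_, ?_⟩
  · intro h
    apply hφ
    have h2 : (MulChar.ofUnitHom (φ.comp (QuotientGroup.mk' H))) ((g : (ZMod p)ˣ) : ZMod p) = 1 := by
      rw [h, MulChar.one_apply_coe]
    rw [MulChar.ofUnitHom_coe] at h2
    exact Units.ext h2
  · intro u hu
    rw [MulChar.ofUnitHom_coe, MonoidHom.comp_apply]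
    have h3 : QuotientGroup.mk' H u = 1 := by
      rw [QuotientGroup.mk'_apply, QuotientGroup.eq_one_iff]
      exact hu
    rw [h3, map_one, Units.val_one]

end Pool.Agent.GenF
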