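import Pool.Agent.GenF.Idl

/-!
MODULE CASC. Elements of a product of ideals of small norm are products of small elements.

`step`. `β ∈ l` from `exists_small_mem`. `Ideal.span {β} = l * J` (`Ideal.dvd_span_singleton`,
`β ∈ l`), `c := absNorm J`; `|N β| = absNorm l * c` (`Ideal.absNorm_span_singleton`, multiplicative),
`c ≥ 1` as `β ≠ 0`, and `absNorm l * c ≤ C nrm β ^ n ≤ C absNorm l`, so `c ≤ C`. `(c : O) ∈ J`
(`Ideal.absNorm_mem`), so for `g ∈ l * a`: `c g ∈ l * a * J = span {β} * a`, so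
`c g = β g1`, `g1 ∈ a` (`Ideal.mem_span_singleton_mul`). Size: `β β' = N β`, `nrm β' ≤ C nrm β ^ (n-1)`;
`N β * g1 = c β' g`, so `absNorm l * c * nrm g1 = nrm (c β' g) ≤ c C nrm β ^ (n - 1) nrm g`;
cancel `c`, take `n`-th powers, `(nrm β ^ (n - 1)) ^ n = (nrm β ^ n) ^ (n - 1) ≤ absNorm l ^ (n - 1)`:
`absNorm l ^ n * nrm g1 ^ n ≤ C ^ n absNorm l ^ (n - 1) nrm g ^ n`, cancel `absNorm l ^ (n - 1)`.

`cascade`: induction on `m` with `step` (`Fin.prod_univ_succ`).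
-/

set_option autoImplicit false

namespace Pool.Agent.GenF

open Finset

variable {O : Type} [CommRing O] [IsDedekindDomain O] [Module.Free ℤ O] [Module.Finite ℤ O]
  [CharZero O] {n : ℕ} (b : Module.Basis (Fin n) ℤ O)

theorem step (hn : 0 < n) : ∃ C : ℕ, 1 ≤ C ∧ ∀ l : Ideal O, l ≠ ⊥ → ∃ β : O, β ≠ 0 ∧
    nrm b β ^ n ≤ Ideal.absNorm l ∧ ∃ c : ℕ, 1 ≤ c ∧ c ≤ C ∧ ∀ (a : Ideal O) (g : O), g ∈ l * a →
      ∃ g1 ∈ a, (c : O) * g = β * g1 ∧ nrm b g1 ^ n * Ideal.absNorm l ≤ C * nrm b g ^ n := by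
  obtain ⟨Cn, hCn1, hCn⟩ := exists_norm_bound b
  obtain ⟨Ca, hCa1, hCa⟩ := exists_adj_bound b hn
  obtain ⟨Cm, hCm1, hCm⟩ := exists_mul_bound b
  refine ⟨Cn + (Cm * Ca) ^ n, by omega, ?_⟩
  intro l hl
  obtain ⟨β, hβl, hβ0, hβn⟩ := exists_small_mem b hn l hl
  have hL0 : 0 < Ideal.absNorm l := by
    rw [Nat.pos_iff_ne_zero]
    exact fun h => hl (Ideal.absNorm_eq_zero_iff.mp h)
  obtain ⟨J, hJ⟩ := Ideal.dvd_span_singleton.mpr hβl
  have hnorm : Ideal.absNorm l * Ideal.absNorm J = (Algebra.norm ℤ β).natAbs := by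
    rw [← map_mul, ← hJ, Ideal.absNorm_span_singleton]
  have hspan : Ideal.absNorm (Ideal.span ({β} : Set O)) ≠ 0 := by
    rw [Ne, Ideal.absNorm_eq_zero_iff, Ideal.span_singleton_eq_bot]
    exact hβ0
  have hN0 : (Algebra.norm ℤ β).natAbs ≠ 0 := by
    rw [← Ideal.absNorm_span_singleton]; exact hspan
  have hc1 : 1 ≤ Ideal.absNorm J := by
    rw [Nat.one_le_iff_ne_zero]
    intro h
    rw [h, mul_zero] at hnorm
    exact hN0 hnorm.symm
  have hcC : Ideal.absNorm J ≤ Cn := by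
    have h1 : Ideal.absNorm l * Ideal.absNorm J ≤ Ideal.absNorm l * Cn := by
      rw [hnorm]
      calc (Algebra.norm ℤ β).natAbs ≤ Cn * nrm b β ^ n := hCn β
        _ ≤ Cn * Ideal.absNorm l := Nat.mul_le_mul_left _ hβn
        _ = Ideal.absNorm l * Cn := Nat.mul_comm _ _
    exact Nat.le_of_mul_le_mul_left h1 hL0
  refine ⟨β, hβ0, hβn, Ideal.absNorm J, hc1, hcC.trans (Nat.le_add_right _ _), ?_⟩
  intro a g hg
  have hmem : ((Ideal.absNorm J : ℕ) : O) * g ∈ Ideal.span ({β} : Set O) * a := by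
    rw [hJ]
    have h1 : ((Ideal.absNorm J : ℕ) : O) * g ∈ J * (l * a) :=
      Ideal.mul_mem_mul (Ideal.absNorm_mem J) hg
    have h2 : J * (l * a) = l * J * a := by ring
    rw [← h2]; exact h1
  obtain ⟨g1, hg1, hgg⟩ := Ideal.mem_span_singleton_mul.mp hmem
  refine ⟨g1, hg1, hgg.symm, ?_⟩
  obtain ⟨β', hβ', hβ's⟩ := hCa β
  have key : ((Algebra.norm ℤ β : ℤ) : O) * g1
      = ((Ideal.absNorm J : ℕ) : O) * (β' * g) := by
    rw [← hβ']
    calc β * β' * g1 = β' * (β * g1) := by ring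
      _ = β' * (((Ideal.absNorm J : ℕ) : O) * g) := by rw [hgg]
      _ = ((Ideal.absNorm J : ℕ) : O) * (β' * g) := by ring
  have h1 : (Algebra.norm ℤ β).natAbs * nrm b g1
      = Ideal.absNorm J * nrm b (β' * g) := by
    rw [← nrm_intCast_mul b, key, nrm_natCast_mul b]
  have h2 : Ideal.absNorm l * nrm b g1 ≤ Cm * Ca * nrm b β ^ (n - 1) * nrm b g := by
    have h3 : Ideal.absNorm J * (Ideal.absNorm l * nrm b g1)
        ≤ Ideal.absNorm J * (Cm * Ca * nrm b β ^ (n - 1) * nrm b g) := by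
      calc Ideal.absNorm J * (Ideal.absNorm l * nrm b g1)
          = (Ideal.absNorm l * Ideal.absNorm J) * nrm b g1 := by ring
        _ = Ideal.absNorm J * nrm b (β' * g) := by rw [hnorm, h1]
        _ ≤ Ideal.absNorm J * (Cm * nrm b β' * nrm b g) := Nat.mul_le_mul_left _ (hCm _ _)
        _ ≤ Ideal.absNorm J * (Cm * (Ca * nrm b β ^ (n - 1)) * nrm b g) := by
            gcongr
        _ = Ideal.absNorm J * (Cm * Ca * nrm b β ^ (n - 1) * nrm b g) := by ring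
    exact Nat.le_of_mul_le_mul_left h3 hc1
  have h4 : Ideal.absNorm l ^ n * nrm b g1 ^ n
      ≤ (Cm * Ca) ^ n * Ideal.absNorm l ^ (n - 1) * nrm b g ^ n := by
    calc Ideal.absNorm l ^ n * nrm b g1 ^ n = (Ideal.absNorm l * nrm b g1) ^ n := by
          rw [mul_pow]
      _ ≤ (Cm * Ca * nrm b β ^ (n - 1) * nrm b g) ^ n := Nat.pow_le_pow_left h2 n
      _ = (Cm * Ca) ^ n * (nrm b β ^ n) ^ (n - 1) * nrm b g ^ n := by
          rw [mul_pow, mul_pow, ← pow_mul, ← pow_mul, Nat.mul_comm n (n - 1)]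
      _ ≤ (Cm * Ca) ^ n * Ideal.absNorm l ^ (n - 1) * nrm b g ^ n := by
          gcongr
  have hsplit : Ideal.absNorm l ^ n = Ideal.absNorm l ^ (n - 1) * Ideal.absNorm l := by
    conv_lhs => rw [show n = (n - 1) + 1 by omega]
    rw [pow_succ]
  have h5 : Ideal.absNorm l ^ (n - 1) * (nrm b g1 ^ n * Ideal.absNorm l)
      ≤ Ideal.absNorm l ^ (n - 1) * ((Cm * Ca) ^ n * nrm b g ^ n) := by
    calc Ideal.absNorm l ^ (n - 1) * (nrm b g1 ^ n * Ideal.absNorm l)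
        = Ideal.absNorm l ^ n * nrm b g1 ^ n := by rw [hsplit]; ring
      _ ≤ (Cm * Ca) ^ n * Ideal.absNorm l ^ (n - 1) * nrm b g ^ n := h4
      _ = Ideal.absNorm l ^ (n - 1) * ((Cm * Ca) ^ n * nrm b g ^ n) := by ring
  have h6 := Nat.le_of_mul_le_mul_left h5 (Nat.pow_pos hL0)
  exact h6.trans (Nat.mul_le_mul_right _ (Nat.le_add_left _ _))

theorem cascade (hn : 0 < n) : ∃ C : ℕ, 1 ≤ C ∧ ∀ (m : ℕ) (l : Fin m → Ideal O),
    (∀ i, l i ≠ ⊥) → ∀ g : O, g ∈ ∏ i, l i → ∃ (c : Fin m → ℕ) (β : Fin m → O) (g' : O),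
      (∀ i, 1 ≤ c i ∧ c i ≤ C ∧ β i ≠ 0 ∧ nrm b (β i) ^ n ≤ Ideal.absNorm (l i)) ∧
      (∏ i, (c i : O)) * g = (∏ i, β i) * g' ∧
      nrm b g' ^ n * ∏ i, Ideal.absNorm (l i) ≤ C ^ m * nrm b g ^ n := by
  obtain ⟨C, hC1, hC⟩ := step b hn
  refine ⟨C, hC1, ?_⟩
  intro m
  induction m with
  | zero =>
    intro l _ g _
    refine ⟨fun _ => 1, fun _ => 1, g, fun i => i.elim0, ?_, ?_⟩
    · simp
    · simp
  | succ m ih =>
    intro l hl g hg
    rw [Fin.prod_univ_succ] at hg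
    obtain ⟨β0, hβ0, hβn, c0, hc1, hc2, hstep⟩ := hC (l 0) (hl 0)
    obtain ⟨g1, hg1, hgg, hsz⟩ := hstep (∏ i : Fin m, l i.succ) g hg
    obtain ⟨c, β, g', hall, heq, hle⟩ := ih (fun i => l i.succ) (fun i => hl _) g1 hg1
    refine ⟨Fin.cons c0 c, Fin.cons β0 β, g', ?_, ?_, ?_⟩
    · intro i
      refine Fin.cases ?_ (fun j => ?_) i
      · exact ⟨hc1, hc2, hβ0, hβn⟩
      · simpa using hall j
    · rw [Fin.prod_univ_succ, Fin.prod_univ_succ]
      simp only [Fin.cons_zero, Fin.cons_succ]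
      calc (c0 : O) * (∏ i, (c i : O)) * g = (∏ i, (c i : O)) * ((c0 : O) * g) := by ring
        _ = (∏ i, (c i : O)) * (β0 * g1) := by rw [hgg]
        _ = β0 * ((∏ i, (c i : O)) * g1) := by ring
        _ = β0 * ((∏ i, β i) * g') := by rw [heq]
        _ = β0 * (∏ i, β i) * g' := by ring
    · rw [Fin.prod_univ_succ]
      calc nrm b g' ^ n * (Ideal.absNorm (l 0) * ∏ i : Fin m, Ideal.absNorm (l i.succ))
          = (nrm b g' ^ n * ∏ i : Fin m, Ideal.absNorm (l i.succ)) * Ideal.absNorm (l 0) := by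
            ring
        _ ≤ (C ^ m * nrm b g1 ^ n) * Ideal.absNorm (l 0) := Nat.mul_le_mul_right _ hle
        _ = C ^ m * (nrm b g1 ^ n * Ideal.absNorm (l 0)) := by ring
        _ ≤ C ^ m * (C * nrm b g ^ n) := Nat.mul_le_mul_left _ hsz
        _ = C ^ (m + 1) * nrm b g ^ n := by ring

end Pool.Agent.GenF
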