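import Pool.Agent.GenF.Idl

/-!
MODULE COUNT. Lower bound for the number of elements of an ideal in a box.

Proof. Take `C` from `exists_reps`; choose for every class `c` of `O ⧸ I` a representative `rep c`
with `nrm (rep c) ^ n ≤ C * absNorm I ≤ D ^ n`, so `nrm (rep c) ≤ D`. The map
`x ↦ (x - rep [x], [x])` from `box b D (M - D)` to `(I ∩ box b 0 M) × (O ⧸ I)` is injective.
The card of `box b D (M - D)` is `(M - 2 D) ^ n`, the card of `O ⧸ I` is `absNorm I`.
-/

set_option autoImplicit false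

namespace Pool.Agent.GenF

open Finset

variable {O : Type} [CommRing O] [IsDedekindDomain O] [Module.Free ℤ O] [Module.Finite ℤ O]
  [CharZero O] {n : ℕ} (b : Module.Basis (Fin n) ℤ O)

open Classical in
theorem count_ideal (hn : 0 < n) : ∃ C : ℕ, 1 ≤ C ∧ ∀ I : Ideal O, I ≠ ⊥ → ∀ M D : ℕ,
    C * Ideal.absNorm I ≤ D ^ n → 2 * D ≤ M →
      (M - 2 * D) ^ n ≤ Ideal.absNorm I * ((box b 0 M).filter fun x => x ∈ I).card := by
  obtain ⟨C, hC, hrep⟩ := exists_reps b hn
  refine ⟨C, hC, fun I hI M D hD hM => ?_⟩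
  have hfin : Finite (O ⧸ I) := Ideal.finiteQuotientOfFreeOfNeBot I hI
  have : Fintype (O ⧸ I) := Fintype.ofFinite _
  have h1 : ∀ c : O ⧸ I, ∃ x : O, Ideal.Quotient.mk I x = c ∧ nrm b x ≤ D := by
    intro c
    obtain ⟨z, rfl⟩ := Ideal.Quotient.mk_surjective c
    obtain ⟨x, hx, hx2⟩ := hrep I hI z
    refine ⟨x, (Ideal.Quotient.eq.2 hx).symm, ?_⟩
    exact le_of_pow_le_pow_left₀ hn.ne' (Nat.zero_le D) (hx2.trans hD)
  choose rep hr1 hr2 using h1
  have hcard : Ideal.absNorm I = Fintype.card (O ⧸ I) := by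
    rw [Ideal.absNorm_apply, Submodule.cardQuot_apply, Nat.card_eq_fintype_card]
  have hbox : (box b (D : ℤ) ((M : ℤ) - D)).card = (M - 2 * D) ^ n := by
    rw [card_box]
    congr 1
    omega
  have h2 : (box b (D : ℤ) ((M : ℤ) - D)).card ≤
      (((box b 0 M).filter fun x => x ∈ I) ×ˢ (Finset.univ : Finset (O ⧸ I))).card := by
    refine Finset.card_le_card_of_injOn
      (fun x => (x - rep (Ideal.Quotient.mk I x), Ideal.Quotient.mk I x)) ?_ ?_
    · intro x hx
      rw [Finset.mem_coe, mem_box] at hx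
      rw [Finset.mem_coe, Finset.mem_product, Finset.mem_filter, mem_box]
      refine ⟨⟨fun i => ?_, ?_⟩, Finset.mem_univ _⟩
      · have h3 := (nrm_le_iff b _ D).1 (hr2 (Ideal.Quotient.mk I x)) i
        have h4 := hx i
        rw [map_sub, Finsupp.sub_apply]
        omega
      · rw [← Ideal.Quotient.eq_zero_iff_mem, map_sub, hr1, sub_self]
    · intro x _ y _ hxy
      simp only [Prod.mk.injEq] at hxy
      rw [hxy.2] at hxy
      exact sub_left_injective hxy.1
  rw [Finset.card_product, Finset.card_univ, hbox, ← hcard] at h2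
  rw [mul_comm (Ideal.absNorm I)]
  exact h2

end Pool.Agent.GenF
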