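import Pool.Agent.GenF.Mul

/-!
MODULE IDL. Small elements and small representatives.

`exists_small_mem`: let `L = absNorm I` (positive, = card of `O ⧸ I`), `m` with
`m ^ n ≤ L < (m + 1) ^ n`. The `(m + 1) ^ n` elements with coordinates in `[0, m]` (`box b 0 (m + 1)`)
have two different members congruent mod `I` (pigeonhole); their difference `v` has
`nrm b v ≤ m`.

`exists_reps`: `v` from `exists_small_mem`, `v v' = N` (`exists_adj_bound`, `N` the norm of `v`,
`N ≠ 0`). For `z` divide the coordinates of `z v'` by `N`: `z v' = N w + s`, coordinates of `s` at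
most `|N|` in absolute value (`Int.emod`). `x := z - w v`; `N x = z v' v - N w v = s v`, so
`|N| nrm x = nrm (s v) ≤ C |N| nrm v`, `nrm x ≤ C nrm v`, `nrm x ^ n ≤ C ^ n absNorm I`.
`z - x = w v ∈ I`.
-/

set_option autoImplicit false

namespace Pool.Agent.GenF

open Finset

variable {O : Type} [CommRing O] [IsDedekindDomain O] [Module.Free ℤ O] [Module.Finite ℤ O]
  [CharZero O] {n : ℕ} (b : Module.Basis (Fin n) ℤ O)

theorem exists_small_mem (hn : 0 < n) (I : Ideal O) (hI : I ≠ ⊥) :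
    ∃ v ∈ I, v ≠ 0 ∧ nrm b v ^ n ≤ Ideal.absNorm I := by
  classical
  set L := Ideal.absNorm I with hL
  have hL0 : L ≠ 0 := fun h => hI (Ideal.absNorm_eq_zero_iff.1 h)
  obtain ⟨m, hm1, hm2⟩ : ∃ m, m ^ n ≤ L ∧ L < (m + 1) ^ n := by
    have hex : ∃ m, L < (m + 1) ^ n :=
      ⟨L, (Nat.lt_succ_self L).trans_le (Nat.le_self_pow hn.ne' _)⟩
    refine ⟨Nat.find hex, ?_, Nat.find_spec hex⟩
    rcases Nat.eq_zero_or_pos (Nat.find hex) with h | h
    · rw [h, zero_pow hn.ne']
      exact Nat.zero_le _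
    · have h1 := Nat.find_min hex (m := Nat.find hex - 1) (by omega)
      rw [Nat.sub_add_cancel h] at h1
      exact not_lt.1 h1
  have : Finite (O ⧸ I) := (Ideal.absNorm_ne_zero_iff I).1 hL0
  have : Fintype (O ⧸ I) := Fintype.ofFinite _
  have hcard : (Finset.univ : Finset (O ⧸ I)).card < (box b 0 ((m + 1 : ℕ) : ℤ)).card := by
    rw [card_box, Finset.card_univ, ← Nat.card_eq_fintype_card]
    have h1 : Nat.card (O ⧸ I) = L := by
      rw [hL, Ideal.absNorm_apply, Submodule.cardQuot_apply]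
    rw [h1, sub_zero, Int.toNat_natCast]
    exact hm2
  obtain ⟨x, hx, y, hy, hne, hxy⟩ := Finset.exists_ne_map_eq_of_card_lt_of_maps_to hcard
    (f := fun x => Ideal.Quotient.mk I x) (fun x _ => Finset.mem_univ _)
  refine ⟨x - y, Ideal.Quotient.eq.1 hxy, sub_ne_zero.2 hne, ?_⟩
  refine (Nat.pow_le_pow_left ?_ n).trans hm1
  rw [nrm_le_iff]
  intro i
  rw [mem_box] at hx hy
  have h1 := hx i
  have h2 := hy i
  rw [map_sub, Finsupp.sub_apply]
  push_cast at h1 h2
  omega

theorem exists_reps (hn : 0 < n) : ∃ C : ℕ, 1 ≤ C ∧ ∀ I : Ideal O, I ≠ ⊥ → ∀ z : O, ∃ x : O,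
    z - x ∈ I ∧ nrm b x ^ n ≤ C * Ideal.absNorm I := by
  classical
  obtain ⟨C, hC1, hC⟩ := exists_mul_bound b
  obtain ⟨_, -, hadj⟩ := exists_adj_bound b hn
  refine ⟨C ^ n, Nat.one_le_pow _ _ hC1, fun I hI z => ?_⟩
  obtain ⟨v, hvI, hv0, hv⟩ := exists_small_mem b hn I hI
  obtain ⟨v', hv', -⟩ := hadj v
  set N : ℤ := Algebra.norm ℤ v with hN
  have hN0 : N ≠ 0 := by
    rw [hN]
    exact Algebra.norm_ne_zero_iff.2 hv0
  set w : O := b.equivFun.symm (fun i => b.repr (z * v') i / N) with hw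
  set s : O := b.equivFun.symm (fun i => b.repr (z * v') i % N) with hs
  have hwi : ∀ i, b.repr w i = b.repr (z * v') i / N := fun i => by
    rw [← Module.Basis.equivFun_apply, hw, LinearEquiv.apply_symm_apply]
  have hsi : ∀ i, b.repr s i = b.repr (z * v') i % N := fun i => by
    rw [← Module.Basis.equivFun_apply, hs, LinearEquiv.apply_symm_apply]
  have hzv : z * v' = (N : O) * w + s := by
    apply b.repr.injective
    ext i
    rw [map_add, Finsupp.add_apply, ← zsmul_eq_mul, map_smul, Finsupp.smul_apply, hwi, hsi,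
      smul_eq_mul]
    exact (Int.mul_ediv_add_emod _ _).symm
  have hsn : nrm b s ≤ N.natAbs := by
    rw [nrm_le_iff]
    intro i
    rw [hsi]
    have h1 := Int.emod_nonneg (b.repr (z * v') i) hN0
    have h2 := Int.emod_lt_abs (b.repr (z * v') i) hN0
    rw [Int.abs_eq_natAbs] at h2
    omega
  refine ⟨z - w * v, by
    rw [sub_sub_cancel]
    exact I.mul_mem_left w hvI, ?_⟩
  have hNx : (N : O) * (z - w * v) = s * v := by
    have h1 : s = z * v' - (N : O) * w := by rw [hzv]; ring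
    rw [h1, ← hv']
    ring
  have h3 : N.natAbs * nrm b (z - w * v) ≤ N.natAbs * (C * nrm b v) := by
    rw [← nrm_intCast_mul, hNx]
    calc nrm b (s * v) ≤ C * nrm b s * nrm b v := hC s v
      _ ≤ C * N.natAbs * nrm b v := Nat.mul_le_mul_right _ (Nat.mul_le_mul_left _ hsn)
      _ = N.natAbs * (C * nrm b v) := by ring
  have h4 : nrm b (z - w * v) ≤ C * nrm b v :=
    Nat.le_of_mul_le_mul_left h3 (Int.natAbs_pos.2 hN0)
  calc nrm b (z - w * v) ^ n ≤ (C * nrm b v) ^ n := Nat.pow_le_pow_left h4 n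
    _ = C ^ n * nrm b v ^ n := mul_pow _ _ _
    _ ≤ C ^ n * Ideal.absNorm I := Nat.mul_le_mul_left _ hv

end Pool.Agent.GenF
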