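import Pool.Agent.GenF.Idl

/-!
MODULE KER. Ring homomorphisms to `ZMod p`.

`absNorm_ker`: `π` is surjective (`ZMod.ringHom_surjective`), `O ⧸ ker π ≃ ZMod p`, so the index is `p`.
`ker_ne`: for `x : O` let `c : ℤ` be a lift of `π x`; `x - c ∈ ker π = ker π'` gives `π' x = c = π x`.
`map_ne_zero`: `π x = 0` gives `p = absNorm (ker π) ∣ N x` (`Ideal.absNorm_dvd_norm_of_mem`), but
`0 < |N x| ≤ C nrm x ^ n < p` (`exists_norm_bound`).
`exists_sep`: `a ∈ ker π'` from `exists_small_mem`, `nrm a ^ n ≤ p`. If `π a = 0` then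
`a ∈ ker π ⊓ ker π' = ker π * ker π'` (different maximal ideals), so `p ^ 2 ∣ N a`, but
`0 < |N a| ≤ C p < p ^ 2`.
-/

set_option autoImplicit false

namespace Pool.Agent.GenF

open Finset

variable {O : Type} [CommRing O] [IsDedekindDomain O] [Module.Free ℤ O] [Module.Finite ℤ O]
  [CharZero O] {n : ℕ} (b : Module.Basis (Fin n) ℤ O)

theorem absNorm_ker (p : ℕ) [Fact p.Prime] (π : O →+* ZMod p) :
    Ideal.absNorm (RingHom.ker π) = p := by
  have hs : Function.Surjective π := ZMod.ringHom_surjective π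
  rw [Ideal.absNorm_apply, Submodule.cardQuot_apply,
    Nat.card_congr (RingHom.quotientKerEquivOfSurjective hs).toEquiv, Nat.card_zmod]

theorem ker_ne (p : ℕ) [Fact p.Prime] {π π' : O →+* ZMod p} (h : π ≠ π') :
    RingHom.ker π ≠ RingHom.ker π' := by
  intro hk
  apply h
  ext x
  obtain ⟨c, hc⟩ := ZMod.intCast_surjective (π x)
  have h1 : x - (c : O) ∈ RingHom.ker π := by
    rw [RingHom.mem_ker, map_sub, map_intCast, hc, sub_self]
  rw [hk, RingHom.mem_ker, map_sub, map_intCast, hc, sub_eq_zero] at h1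
  exact h1.symm

theorem map_ne_zero (hn : 0 < n) : ∃ C : ℕ, 1 ≤ C ∧ ∀ (p : ℕ) [Fact p.Prime] (π : O →+* ZMod p)
    (x : O), x ≠ 0 → C * nrm b x ^ n < p → π x ≠ 0 := by
  obtain ⟨C, hC1, hC⟩ := exists_norm_bound b
  refine ⟨C, hC1, fun p _ π x hx hlt h0 => ?_⟩
  have h1 : ((Ideal.absNorm (RingHom.ker π) : ℕ) : ℤ) ∣ Algebra.norm ℤ x :=
    Ideal.absNorm_dvd_norm_of_mem (by rw [RingHom.mem_ker]; exact h0)
  rw [absNorm_ker] at h1
  have h2 : p ∣ (Algebra.norm ℤ x).natAbs := Int.natCast_dvd.1 h1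
  have h3 : Algebra.norm ℤ x ≠ 0 := Algebra.norm_ne_zero_iff.2 hx
  have h4 := Nat.le_of_dvd (Int.natAbs_pos.2 h3) h2
  have h5 := hC x
  omega

theorem exists_sep (hn : 0 < n) : ∃ C : ℕ, 1 ≤ C ∧ ∀ (p : ℕ) [Fact p.Prime], C < p →
    ∀ π π' : O →+* ZMod p, π ≠ π' → ∃ a : O, π' a = 0 ∧ π a ≠ 0 ∧ nrm b a ^ n ≤ p := by
  classical
  obtain ⟨C, hC, hN⟩ := exists_norm_bound b
  refine ⟨C, hC, ?_⟩
  intro p hpF hp π π' hne
  have hppos : 0 < p := hpF.out.pos
  have hker : ∀ ρ : O →+* ZMod p, RingHom.ker ρ ≠ ⊥ := by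
    intro ρ h
    have h1 := absNorm_ker (O := O) p ρ
    rw [h, Ideal.absNorm_bot] at h1
    omega
  obtain ⟨a, ha, ha0, hna⟩ := exists_small_mem b hn (RingHom.ker π') (hker π')
  rw [absNorm_ker] at hna
  refine ⟨a, ha, ?_, hna⟩
  intro hπ
  have hsurj : ∀ ρ : O →+* ZMod p, Function.Surjective ρ := fun ρ => ZMod.ringHom_surjective ρ
  have hmax : ∀ ρ : O →+* ZMod p, (RingHom.ker ρ).IsMaximal := fun ρ =>
    RingHom.ker_isMaximal_of_surjective ρ (hsurj ρ)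
  have hco : IsCoprime (RingHom.ker π) (RingHom.ker π') :=
    Ideal.isCoprime_iff_sup_eq.mpr ((hmax π).coprime_of_ne (hmax π') (ker_ne p hne))
  have hmem : a ∈ RingHom.ker π * RingHom.ker π' := by
    rw [Ideal.mul_eq_inf_of_isCoprime hco]
    exact ⟨hπ, ha⟩
  have hdvd : Ideal.absNorm (RingHom.ker π * RingHom.ker π') ∣ Ideal.absNorm (Ideal.span {a}) := by
    apply Ideal.absNorm_dvd_absNorm_of_le
    rwa [Ideal.span_singleton_le_iff_mem]
  rw [map_mul, absNorm_ker, absNorm_ker, Ideal.absNorm_span_singleton] at hdvd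
  have hpos : 0 < (Algebra.norm ℤ a).natAbs := by
    rw [← Ideal.absNorm_span_singleton, Nat.pos_iff_ne_zero, Ne, Ideal.absNorm_eq_zero_iff,
      Ideal.span_singleton_eq_bot]
    exact ha0
  have h1 : p * p ≤ (Algebra.norm ℤ a).natAbs := Nat.le_of_dvd hpos hdvd
  have h2 : (Algebra.norm ℤ a).natAbs ≤ C * p := (hN a).trans (Nat.mul_le_mul_left _ hna)
  have h3 : C * p < p * p := Nat.mul_lt_mul_of_pos_right hp hppos
  omega

end Pool.Agent.GenF
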