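import Pool.Agent.GenF.Size

/-!
MODULE MUL. Products, norms and the adjugate.
Proofs. (1) `x * y = ∑ x_i y_j (b i * b j)`, so `C = n ^ 2 * max nrm (b i * b j)` (plus 1).
(2) `Algebra.norm ℤ x = det (Algebra.leftMulMatrix b x)`, the entries of the matrix are bounded by
`C nrm x` (entries are coordinates of `x * b j`), the determinant is a sum of `n!` products of `n`
entries (`Matrix.det_apply`), so `|det| ≤ n! (C nrm x) ^ n`.
(3) `y` = the element with coordinate vector `(adjugate M).mulVec e`, `M = leftMulMatrix b x`,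
`e` = coordinates of `1`. Then `x * y` has coordinates `M (adjugate M) e = det M • e`
(`Matrix.mul_adjugate`), so `x * y = det M`. The entries of the adjugate are determinants of `M` with
one row or column replaced by a unit vector (`Matrix.adjugate_apply`), bounded by
`n! * C ^ n * nrm x ^ (n - 1)` (every product in the expansion contains the entry of the unit row
exactly once; use `Matrix.det_succ_row` or bound the product by `1 * (C nrm x) ^ (n - 1)`, treat
`nrm x = 0` separately). `n ≥ 1` in (3).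
-/

set_option autoImplicit false

namespace Pool.Agent.GenF

open Finset

variable {O : Type} [CommRing O] {n : ℕ} (b : Module.Basis (Fin n) ℤ O)

private theorem nrm_sum_le {ι : Type} (s : Finset ι) (f : ι → O) :
    nrm b (∑ i ∈ s, f i) ≤ ∑ i ∈ s, nrm b (f i) := by
  classical
  induction s using Finset.induction_on with
  | empty => simp [nrm_zero]
  | insert a s ha ih =>
    rw [sum_insert ha, sum_insert ha]
    exact (nrm_add_le b _ _).trans (Nat.add_le_add_left ih _)

private theorem natAbs_repr_le (x : O) (i : Fin n) : (b.repr x i).natAbs ≤ nrm b x :=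
  Finset.le_sup (f := fun i => (b.repr x i).natAbs) (mem_univ i)

theorem exists_mul_bound : ∃ C : ℕ, 1 ≤ C ∧ ∀ x y : O, nrm b (x * y) ≤ C * nrm b x * nrm b y := by
  refine ⟨(∑ i, ∑ j, nrm b (b i * b j)) + 1, by omega, fun x y => ?_⟩
  have hx : x = ∑ i, (b.repr x i : O) * b i := by
    conv_lhs => rw [← b.sum_repr x]
    exact Finset.sum_congr rfl fun i _ => zsmul_eq_mul _ _
  have hy : y = ∑ i, (b.repr y i : O) * b i := by
    conv_lhs => rw [← b.sum_repr y]
    exact Finset.sum_congr rfl fun i _ => zsmul_eq_mul _ _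
  have hxy : x * y = ∑ i, ∑ j, ((b.repr x i * b.repr y j : ℤ) : O) * (b i * b j) := by
    conv_lhs => rw [hx, hy]
    rw [Finset.sum_mul_sum]
    refine Finset.sum_congr rfl fun i _ => Finset.sum_congr rfl fun j _ => ?_
    push_cast
    ring
  rw [hxy]
  have h1 : nrm b (∑ i, ∑ j, ((b.repr x i * b.repr y j : ℤ) : O) * (b i * b j)) ≤
      ∑ i, ∑ j, nrm b x * nrm b y * nrm b (b i * b j) := by
    refine (nrm_sum_le b _ _).trans (Finset.sum_le_sum fun i _ => ?_)
    refine (nrm_sum_le b _ _).trans (Finset.sum_le_sum fun j _ => ?_)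
    rw [nrm_intCast_mul, Int.natAbs_mul]
    exact Nat.mul_le_mul_right _ (Nat.mul_le_mul (natAbs_repr_le b x i) (natAbs_repr_le b y j))
  refine h1.trans ?_
  have h2 : ∑ i, ∑ j, nrm b x * nrm b y * nrm b (b i * b j) =
      nrm b x * nrm b y * ∑ i, ∑ j, nrm b (b i * b j) := by
    rw [Finset.mul_sum]
    exact Finset.sum_congr rfl fun i _ => by rw [Finset.mul_sum]
  rw [h2]
  nlinarith [Nat.zero_le (nrm b x * nrm b y)]

theorem exists_norm_bound : ∃ C : ℕ, 1 ≤ C ∧ ∀ x : O,
    (Algebra.norm ℤ x).natAbs ≤ C * nrm b x ^ n := by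
  classical
  obtain ⟨C, hC1, hC⟩ := exists_mul_bound b
  refine ⟨n.factorial * C ^ n, Nat.one_le_iff_ne_zero.2 (by positivity), fun x => ?_⟩
  have hb : ∀ j, nrm b (b j) ≤ 1 := by
    intro j
    rw [nrm_le_iff]
    intro i
    rw [b.repr_self, Finsupp.single_apply]
    split_ifs <;> simp
  rw [Algebra.norm_eq_matrix_det b x]
  have h1 := Matrix.det_le (A := Algebra.leftMulMatrix b x) (abv := AbsoluteValue.abs)
    (x := ((C * nrm b x : ℕ) : ℤ)) (fun i j => by
      rw [Algebra.leftMulMatrix_eq_repr_mul]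
      have e1 := natAbs_repr_le b (x * b j) i
      have e2 := hC x (b j)
      have e3 : C * nrm b x * nrm b (b j) ≤ C * nrm b x :=
        (Nat.mul_le_mul_left _ (hb j)).trans (by rw [mul_one])
      have e4 : (b.repr (x * b j) i).natAbs ≤ C * nrm b x := (e1.trans e2).trans e3
      show |b.repr (x * b j) i| ≤ _
      rw [← Int.natCast_natAbs]
      exact_mod_cast e4)
  have h2 : ((Algebra.leftMulMatrix b x).det.natAbs : ℤ) ≤
      ((n.factorial * C ^ n * nrm b x ^ n : ℕ) : ℤ) := by
    rw [Int.natCast_natAbs]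
    refine h1.trans (le_of_eq ?_)
    rw [Fintype.card_fin, nsmul_eq_mul]
    push_cast
    ring
  exact_mod_cast h2

private theorem MULB_basis (j : Fin n) : nrm b (b j) ≤ 1 := by
  classical
  rw [nrm_le_iff]
  intro i
  rw [Module.Basis.repr_self, Finsupp.single_apply]
  split_ifs <;> simp

private theorem MULB_prod {ι : Type} [DecidableEq ι] (s : Finset ι) (f : ι → ℕ) (k : ι) (hk : k ∈ s)
    (B : ℕ) (h1 : f k ≤ 1) (h2 : ∀ i ∈ s, i ≠ k → f i ≤ B) : ∏ i ∈ s, f i ≤ B ^ (s.card - 1) := by
  rw [← Finset.mul_prod_erase s f hk, ← Finset.card_erase_of_mem hk]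
  calc f k * ∏ i ∈ s.erase k, f i ≤ 1 * ∏ i ∈ s.erase k, B := by
        refine Nat.mul_le_mul h1 (Finset.prod_le_prod' fun i hi => ?_)
        exact h2 i (Finset.mem_of_mem_erase hi) (Finset.ne_of_mem_erase hi)
    _ = B ^ (s.erase k).card := by rw [one_mul, Finset.prod_const]

private theorem MULB_sum {ι : Type} (s : Finset ι) (f : ι → ℤ) :
    (∑ i ∈ s, f i).natAbs ≤ ∑ i ∈ s, (f i).natAbs := by
  classical
  induction s using Finset.induction_on with
  | empty => simp
  | insert a s ha ih =>
    rw [Finset.sum_insert ha, Finset.sum_insert ha]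
    exact (Int.natAbs_add_le _ _).trans (Nat.add_le_add_left ih _)

private theorem MULB_natAbs_prod {ι : Type} (s : Finset ι) (f : ι → ℤ) :
    (∏ i ∈ s, f i).natAbs = ∏ i ∈ s, (f i).natAbs := by
  classical
  induction s using Finset.induction_on with
  | empty => simp
  | insert a s ha ih =>
    rw [Finset.prod_insert ha, Finset.prod_insert ha, Int.natAbs_mul, ih]

private theorem MULB_adj (M : Matrix (Fin n) (Fin n) ℤ) (B : ℕ) (hM : ∀ i j, (M i j).natAbs ≤ B)
    (i j : Fin n) : (M.adjugate i j).natAbs ≤ n.factorial * B ^ (n - 1) := by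
  classical
  rw [Matrix.adjugate_apply, Matrix.det_apply]
  refine (MULB_sum _ _).trans ?_
  refine (Finset.sum_le_card_nsmul _ _ (B ^ (n - 1)) fun σ _ => ?_).trans ?_
  · have h1 : ((Equiv.Perm.sign σ) • ∏ k, (M.updateRow j (Pi.single i 1)) (σ k) k).natAbs =
        (∏ k, (M.updateRow j (Pi.single i 1)) (σ k) k).natAbs := by
      rcases Int.units_eq_one_or (Equiv.Perm.sign σ) with h | h <;> rw [h] <;> simp
    rw [h1, MULB_natAbs_prod]
    have h2 := MULB_prod (Finset.univ : Finset (Fin n))
      (fun k => ((M.updateRow j (Pi.single i 1)) (σ k) k).natAbs) (σ.symm j) (Finset.mem_univ _) B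
      ?_ ?_
    · simpa using h2
    · simp only [Equiv.apply_symm_apply, Matrix.updateRow_self, Pi.single_apply]
      split_ifs <;> simp
    · intro k _ hk
      have h3 : σ k ≠ j := fun h => hk (by rw [← h]; simp)
      show ((M.updateRow j (Pi.single i 1)) (σ k) k).natAbs ≤ B
      rw [Matrix.updateRow_ne h3]
      exact hM _ _
  · rw [Finset.card_univ, Fintype.card_perm, Fintype.card_fin, smul_eq_mul]

theorem exists_adj_bound (hn : 0 < n) : ∃ C : ℕ, 1 ≤ C ∧ ∀ x : O, ∃ y : O,
    x * y = ((Algebra.norm ℤ x : ℤ) : O) ∧ nrm b y ≤ C * nrm b x ^ (n - 1) := by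
  classical
  obtain ⟨C₀, -, hC₀⟩ := exists_mul_bound b
  refine ⟨n * (n.factorial * C₀ ^ (n - 1)) * nrm b 1 + 1, by omega, fun x => ?_⟩
  set M := Algebra.leftMulMatrix b x with hM
  set y : O := b.equivFun.symm (M.adjugate.mulVec (b.equivFun 1)) with hy
  have hyc : b.equivFun y = M.adjugate.mulVec (b.equivFun 1) := by
    rw [hy, LinearEquiv.apply_symm_apply]
  refine ⟨y, ?_, ?_⟩
  · apply b.equivFun.injective
    have h1 : b.equivFun (x * y) = M.mulVec (b.equivFun y) := by
      rw [hM]
      exact (Algebra.leftMulMatrix_mulVec_repr b x y).symm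
    rw [h1, hyc, Matrix.mulVec_mulVec, Matrix.mul_adjugate, Matrix.smul_mulVec, Matrix.one_mulVec,
      hM, ← Algebra.norm_eq_matrix_det b x, ← map_smul]
    congr 1
    rw [zsmul_eq_mul, mul_one]
  · rw [nrm_le_iff]
    intro i
    have hent : ∀ i j, (M i j).natAbs ≤ C₀ * nrm b x := by
      intro i j
      rw [hM, Algebra.leftMulMatrix_eq_repr_mul]
      have h1 : nrm b (x * b j) ≤ C₀ * nrm b x := by
        refine (hC₀ x (b j)).trans ?_
        exact (Nat.mul_le_mul_left _ (MULB_basis b j)).trans (by rw [mul_one])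
      exact (nrm_le_iff b _ _).1 h1 i
    have h2 : b.repr y i = ∑ j, M.adjugate i j * b.repr 1 j := by
      have h3 := congrFun hyc i
      rw [Module.Basis.equivFun_apply] at h3
      rw [h3]
      rfl
    rw [h2]
    refine (MULB_sum _ _).trans ?_
    refine (Finset.sum_le_card_nsmul _ _ (n.factorial * (C₀ * nrm b x) ^ (n - 1) * nrm b 1)
      fun j _ => ?_).trans ?_
    · rw [Int.natAbs_mul]
      exact Nat.mul_le_mul (MULB_adj M _ hent i j) ((nrm_le_iff b _ _).1 le_rfl j)
    · rw [Finset.card_univ, Fintype.card_fin, smul_eq_mul, mul_pow]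
      have h4 : n * (n.factorial * (C₀ ^ (n - 1) * nrm b x ^ (n - 1)) * nrm b 1) =
        n * (n.factorial * C₀ ^ (n - 1)) * nrm b 1 * nrm b x ^ (n - 1) := by ring
      rw [h4, add_mul]
      exact Nat.le_add_right _ _

end Pool.Agent.GenF
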