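import Pool.Agent.GenF.Ker

/-!
MODULE ORTH. Orthogonality of the characters `χ ∘ π` and `χ ∘ π'` on a box.

Proof. `a` from `exists_sep`: `π' a = 0`, `π a ≠ 0`, `nrm a ^ n ≤ p`. For `c : ZMod p` let `x_c` be an
element with `π x_c = c` and `nrm x_c ^ n ≤ C p` (`exists_reps` for the ideal `ker π`, of norm `p`, applied
to an integer lift of `c`). `y_c := x_c * a`, `nrm y_c ≤ C nrm x_c nrm a`, so `nrm y_c ^ n ≤ C' p ^ 2 ≤ D ^ n`,
`nrm y_c ≤ D`. Let `g x = χ (π x) * conj (χ (π' x))`, `‖g x‖ ≤ 1`. For every `x`: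
`∑_c g (x + y_c) = conj (χ (π' x)) * ∑_c χ (π x + c * π a) = 0` (`c ↦ π x + c * π a` is a bijection of
`ZMod p`, `MulChar.sum_eq_zero_of_ne_one`). So `p * ∑_{x ∈ box} g x = ∑_c ∑_{x ∈ box} (g x - g (x + y_c))`
and `‖∑_{x ∈ box} g x - ∑_{x ∈ box} g (x + y_c)‖ ≤ #{x ∈ box, x + y_c ∉ box} + #{x ∈ box, x - y_c ∉ box}
≤ 2 n D M ^ (n - 1)` (`shift_card` for `y_c` and `- y_c`).
-/

set_option autoImplicit false

namespace Pool.Agent.GenF

open Finset

variable {O : Type} [CommRing O] [IsDedekindDomain O] [Module.Free ℤ O] [Module.Finite ℤ O]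
  [CharZero O] {n : ℕ} (b : Module.Basis (Fin n) ℤ O)

omit [IsDedekindDomain O] [Module.Free ℤ O] [Module.Finite ℤ O] [CharZero O] in
/-- two sums over a box and over a shifted box -/
theorem shift_sum (g : O → ℂ) (hg : ∀ x, ‖g x‖ ≤ 1) (y : O) (M D : ℕ) (hy : nrm b y ≤ D) :
    ‖∑ x ∈ box b 0 M, g x - ∑ x ∈ box b 0 M, g (x + y)‖ ≤ 2 * n * D * (M : ℝ) ^ (n - 1) := by
  classical
  set B := box b 0 M with hB
  set e : O ↪ O := ⟨fun x => x + y, fun a c h => by simpa using h⟩ with he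
  have h1 : ∑ x ∈ B, g (x + y) = ∑ x ∈ B.map e, g x := by
    rw [Finset.sum_map]; rfl
  rw [h1]
  have h2 : ∑ x ∈ B, g x = ∑ x ∈ B \ B.map e, g x + ∑ x ∈ B ∩ B.map e, g x := by
    rw [add_comm, Finset.sum_inter_add_sum_sdiff]
  have h3 : ∑ x ∈ B.map e, g x = ∑ x ∈ B.map e \ B, g x + ∑ x ∈ B ∩ B.map e, g x := by
    rw [add_comm, Finset.inter_comm, Finset.sum_inter_add_sum_sdiff]
  have h4 : ∑ x ∈ B, g x - ∑ x ∈ B.map e, g x
      = ∑ x ∈ B \ B.map e, g x - ∑ x ∈ B.map e \ B, g x := by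
    rw [h2, h3]; ring
  rw [h4]
  have hc : ∀ s : Finset O, ‖∑ x ∈ s, g x‖ ≤ s.card := by
    intro s
    calc ‖∑ x ∈ s, g x‖ ≤ ∑ x ∈ s, ‖g x‖ := norm_sum_le _ _
      _ ≤ ∑ x ∈ s, (1 : ℝ) := Finset.sum_le_sum fun x _ => hg x
      _ = s.card := by simp
  have hA : (B \ B.map e).card ≤ n * D * M ^ (n - 1) := by
    have : B \ B.map e = B.filter fun x => x + (-y) ∉ B := by
      ext x
      simp only [Finset.mem_sdiff, Finset.mem_map, Finset.mem_filter, he, Function.Embedding.coeFn_mk,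
        not_exists, not_and]
      constructor
      · rintro ⟨h, h'⟩
        exact ⟨h, fun hx => h' _ hx (by ring)⟩
      · rintro ⟨h, h'⟩
        refine ⟨h, fun a ha hax => h' ?_⟩
        rw [← hax]
        simpa using ha
    rw [this]
    refine (shift_card b (-y) M).trans ?_
    rw [nrm_neg]
    gcongr
  have hA' : (B.map e \ B).card ≤ n * D * M ^ (n - 1) := by
    have : (B.map e \ B).card = (B.filter fun x => x + y ∉ B).card := by
      have : B.map e \ B = (B.filter fun x => x + y ∉ B).map e := by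
        ext x
        simp only [Finset.mem_sdiff, Finset.mem_map, Finset.mem_filter, he, Function.Embedding.coeFn_mk]
        constructor
        · rintro ⟨⟨a, ha, rfl⟩, h⟩
          exact ⟨a, ⟨ha, h⟩, rfl⟩
        · rintro ⟨a, ⟨ha, h⟩, rfl⟩
          exact ⟨⟨a, ha, rfl⟩, h⟩
      rw [this, Finset.card_map]
    rw [this]
    refine (shift_card b y M).trans ?_
    gcongr
  calc ‖∑ x ∈ B \ B.map e, g x - ∑ x ∈ B.map e \ B, g x‖
      ≤ ‖∑ x ∈ B \ B.map e, g x‖ + ‖∑ x ∈ B.map e \ B, g x‖ := norm_sub_le _ _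
    _ ≤ ((B \ B.map e).card : ℝ) + ((B.map e \ B).card : ℝ) := add_le_add (hc _) (hc _)
    _ ≤ ((n * D * M ^ (n - 1) : ℕ) : ℝ) + ((n * D * M ^ (n - 1) : ℕ) : ℝ) :=
        add_le_add (by exact_mod_cast hA) (by exact_mod_cast hA')
    _ = 2 * n * D * (M : ℝ) ^ (n - 1) := by push_cast; ring

theorem orth (hn : 0 < n) : ∃ C : ℕ, 1 ≤ C ∧ ∀ (p : ℕ) [Fact p.Prime], C < p →
    ∀ π π' : O →+* ZMod p, π ≠ π' → ∀ χ : MulChar (ZMod p) ℂ, χ ≠ 1 → ∀ M D : ℕ,
      C * p ^ 2 ≤ D ^ n →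
        ‖∑ x ∈ box b 0 M, χ (π x) * (starRingEnd ℂ) (χ (π' x))‖ ≤
          2 * n * D * (M : ℝ) ^ (n - 1) := by
  classical
  obtain ⟨Cs, hCs, hsep⟩ := exists_sep b hn
  obtain ⟨Cr, hCr, hrep⟩ := exists_reps b hn
  obtain ⟨Cm, hCm, hmul⟩ := exists_mul_bound b
  refine ⟨Cs + Cm ^ n * Cr, by omega, ?_⟩
  intro p hpF hp π π' hne χ hχ M D hD
  have hp1 : Cs < p := by omega
  have hppos : 0 < p := hpF.out.pos
  obtain ⟨a, ha', ha, hna⟩ := hsep p hp1 π π' hne
  have hnorm : ∀ z : ZMod p, ‖χ z‖ ≤ 1 := fun z => DirichletCharacter.norm_le_one (χ : DirichletCharacter ℂ p) z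
  -- representatives
  have hker : RingHom.ker π ≠ ⊥ := by
    intro h
    have h1 := absNorm_ker (O := O) p π
    rw [h, Ideal.absNorm_bot] at h1
    omega
  have hx : ∀ c : ZMod p, ∃ x : O, π x = c ∧ nrm b x ^ n ≤ Cr * p := by
    intro c
    obtain ⟨x, hx, hxn⟩ := hrep (RingHom.ker π) hker ((c.val : ℕ) : O)
    refine ⟨x, ?_, ?_⟩
    · rw [RingHom.mem_ker, map_sub, map_natCast, sub_eq_zero] at hx
      rw [← hx]
      exact ZMod.natCast_zmod_val c
    · rw [absNorm_ker] at hxn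
      exact hxn
  choose xc hxc hxn using hx
  set g : O → ℂ := fun x => χ (π x) * (starRingEnd ℂ) (χ (π' x)) with hg
  have hgn : ∀ x, ‖g x‖ ≤ 1 := by
    intro x
    simp only [hg, norm_mul, RCLike.norm_conj]
    exact mul_le_one₀ (hnorm _) (norm_nonneg _) (hnorm _)
  have hyn : ∀ c, nrm b (xc c * a) ≤ D := by
    intro c
    have h1 : nrm b (xc c * a) ^ n ≤ D ^ n := by
      calc nrm b (xc c * a) ^ n ≤ (Cm * nrm b (xc c) * nrm b a) ^ n :=
            Nat.pow_le_pow_left (hmul _ _) n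
        _ = Cm ^ n * (nrm b (xc c) ^ n) * (nrm b a ^ n) := by rw [mul_pow, mul_pow]
        _ ≤ Cm ^ n * (Cr * p) * p := by
            gcongr
            exact hxn c
        _ = Cm ^ n * Cr * p ^ 2 := by ring
        _ ≤ (Cs + Cm ^ n * Cr) * p ^ 2 := by
            gcongr
            omega
        _ ≤ D ^ n := hD
    exact (Nat.pow_le_pow_iff_left hn.ne').mp h1
  have hsum0 : ∀ x : O, ∑ c : ZMod p, g (x + xc c * a) = 0 := by
    intro x
    have h1 : ∀ c : ZMod p, g (x + xc c * a)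
        = χ (π x + c * π a) * (starRingEnd ℂ) (χ (π' x)) := by
      intro c
      simp only [hg, map_add, map_mul, hxc, ha', mul_zero, add_zero]
    rw [Finset.sum_congr rfl fun c _ => h1 c, ← Finset.sum_mul]
    have h2 : ∑ c : ZMod p, χ (π x + c * π a) = ∑ c : ZMod p, χ c := by
      refine Fintype.sum_bijective (fun c => π x + c * π a) ?_ _ _ fun c => rfl
      constructor
      · intro c c' h
        have h3 : c * π a = c' * π a := by simpa using h
        exact mul_right_cancel₀ ha h3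
      · intro z
        exact ⟨(z - π x) * (π a)⁻¹, by simp only; rw [inv_mul_cancel_right₀ ha]; ring⟩
    rw [h2, MulChar.sum_eq_zero_of_ne_one hχ, zero_mul]
  have hkey : (p : ℂ) * ∑ x ∈ box b 0 M, g x
      = ∑ c : ZMod p, (∑ x ∈ box b 0 M, g x - ∑ x ∈ box b 0 M, g (x + xc c * a)) := by
    have h1 : ∑ c : ZMod p, ∑ x ∈ box b 0 M, g (x + xc c * a) = 0 := by
      rw [Finset.sum_comm, Finset.sum_congr rfl fun x _ => hsum0 x]
      simp
    rw [Finset.sum_sub_distrib, h1]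
    simp [ZMod.card]
  have hb : (p : ℝ) * ‖∑ x ∈ box b 0 M, g x‖ ≤ p * (2 * n * D * (M : ℝ) ^ (n - 1)) := by
    calc (p : ℝ) * ‖∑ x ∈ box b 0 M, g x‖ = ‖(p : ℂ) * ∑ x ∈ box b 0 M, g x‖ := by
          rw [norm_mul]; simp
      _ ≤ ∑ c : ZMod p, ‖∑ x ∈ box b 0 M, g x - ∑ x ∈ box b 0 M, g (x + xc c * a)‖ := by
          rw [hkey]; exact norm_sum_le _ _
      _ ≤ ∑ c : ZMod p, (2 * n * D * (M : ℝ) ^ (n - 1)) :=
          Finset.sum_le_sum fun c _ => shift_sum b g hgn _ M D (hyn c)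
      _ = p * (2 * n * D * (M : ℝ) ^ (n - 1)) := by simp [ZMod.card]
  exact le_of_mul_le_mul_left hb (by exact_mod_cast hppos)

end Pool.Agent.GenF
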